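import Pool.Agent.Run7.h979.JR.Iface

set_option autoImplicit false

noncomputable section

namespace Run7.h288.JR

open Finset Classical Run7.h979.JR

instance discPh (k : ℕ) : DiscreteTopology (ZMod (ell k)) := inferInstance

theorem leg_closed (L : Lv) (z : ℤ) : IsClosed {v : Sq | Leg L (fun n => v (n - z))} := by
  have e : {v : Sq | Leg L (fun n => v (n - z))} =
      ⋂ t : ℤ, ⋃ x : L.V, ⋂ i : ℕ, ⋂ _ : i < L.len, {v : Sq | v (t * L.len + i - z) = L.lt x i} := by
    ext v
    simp only [Leg, Set.mem_setOf_eq, Set.mem_iInter, Set.mem_iUnion]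
  rw [e]
  refine isClosed_iInter fun t => isClosed_iUnion_of_finite fun x =>
    isClosed_iInter fun i => isClosed_iInter fun _ => ?_
  exact isClosed_eq (continuous_apply _) continuous_const

theorem phase_closed (k : ℕ) :
    IsClosed {y : Ph × Sq | ∃ z : ℤ, ∀ j ≤ k, y.1 j = (z : ZMod (ell j))} := by
  have hc : Continuous (fun y : Ph × Sq => fun j : Fin (k + 1) => y.1 j.1) :=
    continuous_pi fun j => (continuous_apply j.1).comp continuous_fst
  have e : {y : Ph × Sq | ∃ z : ℤ, ∀ j ≤ k, y.1 j = (z : ZMod (ell j))} =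
      (fun y : Ph × Sq => fun j : Fin (k + 1) => y.1 j.1) ⁻¹'
        {w : ∀ j : Fin (k + 1), ZMod (ell j.1) | ∃ z : ℤ, ∀ j, w j = (z : ZMod (ell j.1))} := by
    ext y
    simp only [Set.mem_setOf_eq, Set.mem_preimage]
    constructor
    · rintro ⟨z, hz⟩
      exact ⟨z, fun j => hz j.1 (by omega)⟩
    · rintro ⟨z, hz⟩
      exact ⟨z, fun j hj => hz ⟨j, by omega⟩⟩
  rw [e]
  exact (isClosed_discrete _).preimage hc

theorem ys_closed : IsClosed YS := by
  have e : YS = ⋂ k : ℕ, ({y : Ph × Sq | ∃ z : ℤ, ∀ j ≤ k, y.1 j = (z : ZMod (ell j))} ∩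
      ⋂ z : ℤ, ({y : Ph × Sq | y.1 k ≠ (z : ZMod (ell k))} ∪
        {y : Ph × Sq | Leg (Lk k) (fun n => y.2 (n - z))})) := by
    ext y
    simp only [YS, Set.mem_setOf_eq, Set.mem_iInter, Set.mem_inter_iff, Set.mem_union, ne_eq]
    refine forall_congr' fun k => and_congr Iff.rfl (forall_congr' fun z => ?_)
    exact imp_iff_not_or
  rw [e]
  refine isClosed_iInter fun k => (phase_closed k).inter (isClosed_iInter fun z => ?_)
  refine IsClosed.union ?_ ?_
  · have h1 : Continuous (fun y : Ph × Sq => y.1 k) := (continuous_apply k).comp continuous_fst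
    exact (isClosed_discrete {a : ZMod (ell k) | a ≠ (z : ZMod (ell k))}).preimage h1
  · exact (leg_closed (Lk k) z).preimage continuous_snd

theorem ds_closed : IsClosed DS := by
  have e : DS = ((fun d : Ph × Sq × Sq => ((d.1, d.2.1) : Ph × Sq)) ⁻¹' YS) ∩
      (((fun d : Ph × Sq × Sq => ((d.1, d.2.2) : Ph × Sq)) ⁻¹' YS) ∩
      ({d : Ph × Sq × Sq | d.2.1 0 = d.2.2 0} ∩
        ⋂ n : ℤ, ⋂ _ : n ≠ 0, {d : Ph × Sq × Sq | d.2.1 n ≠ d.2.2 n})) := by
    ext d
    simp only [DS, Set.mem_setOf_eq, Set.mem_iInter, Set.mem_inter_iff, Set.mem_preimage]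
  rw [e]
  have c1 : Continuous (fun d : Ph × Sq × Sq => d.2.1) := continuous_fst.comp continuous_snd
  have c2 : Continuous (fun d : Ph × Sq × Sq => d.2.2) := continuous_snd.comp continuous_snd
  refine (ys_closed.preimage (continuous_fst.prodMk c1)).inter
    ((ys_closed.preimage (continuous_fst.prodMk c2)).inter (IsClosed.inter ?_ ?_))
  · exact isClosed_eq ((continuous_apply 0).comp c1) ((continuous_apply 0).comp c2)
  · refine isClosed_iInter fun n => isClosed_iInter fun _ => ?_
    have h1 : Continuous (fun d : Ph × Sq × Sq => ((d.2.1 n, d.2.2 n) : ZMod 3 × ZMod 3)) :=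
      ((continuous_apply n).comp c1).prodMk ((continuous_apply n).comp c2)
    exact (isClosed_discrete {a : ZMod 3 × ZMod 3 | a.1 ≠ a.2}).preimage h1

theorem t_CLO : S_CLO := ⟨leg_closed, ys_closed, ds_closed⟩

end Run7.h288.JR
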