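import Pool.Agent.Run7.h979.JR.Iface

set_option autoImplicit false

noncomputable section

namespace Run7.h288.JR

open Finset Classical Run7.h979.JR

theorem t_EXP : S_EXP := by
  intro L hL Z hZ
  by_cases h : Z.card + 1 ≤ (univ.filter (fun w => ∃ v ∈ Z, L.R v w)).card
  · exact Or.inr h
  left
  have hinj : Function.Injective L.s := by
    intro a b hab
    have := congrArg (fun x => L.s (L.s x)) hab
    simpa [L.s3] using this
  have h1 : Z.image L.s ⊆ univ.filter (fun w => ∃ v ∈ Z, L.R v w) := by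
    intro w hw
    obtain ⟨v, hv, rfl⟩ := mem_image.1 hw
    exact mem_filter.2 ⟨mem_univ _, v, hv, L.R_s v⟩
  have h2 : Z.image (fun v => L.s (L.s v)) ⊆ univ.filter (fun w => ∃ v ∈ Z, L.R v w) := by
    intro w hw
    obtain ⟨v, hv, rfl⟩ := mem_image.1 hw
    refine mem_filter.2 ⟨mem_univ _, v, hv, ?_⟩
    have := L.R_s (L.s (L.s v))
    rw [L.s3] at this
    exact L.R_symm this
  have c1 : (Z.image L.s).card = Z.card := card_image_of_injective _ hinj
  have c2 : (Z.image (fun v => L.s (L.s v))).card = Z.card :=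
    card_image_of_injective _ (hinj.comp hinj)
  have e1 : Z.image L.s = univ.filter (fun w => ∃ v ∈ Z, L.R v w) :=
    eq_of_subset_of_card_le h1 (by omega)
  have e2 : Z.image (fun v => L.s (L.s v)) = univ.filter (fun w => ∃ v ∈ Z, L.R v w) :=
    eq_of_subset_of_card_le h2 (by omega)
  have hsub : Z ⊆ univ.filter (fun w => ∃ v ∈ Z, L.R v w) := by
    intro v hv
    have h3 : L.s v ∈ Z.image (fun v => L.s (L.s v)) := by
      rw [e2, ← e1]
      exact mem_image_of_mem _ hv
    obtain ⟨v', hv', h4⟩ := mem_image.1 h3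
    rw [← e1]
    exact mem_image.2 ⟨v', hv', hinj h4⟩
  have e3 : Z = univ.filter (fun w => ∃ v ∈ Z, L.R v w) :=
    eq_of_subset_of_card_le hsub (by omega)
  obtain ⟨v0, hv0⟩ := hZ
  have hall := hL (Z : Set L.V) ⟨v0, hv0⟩ (by
    intro v hv w hw
    have : w ∈ univ.filter (fun w => ∃ v ∈ Z, L.R v w) := mem_filter.2 ⟨mem_univ _, v, hv, hw⟩
    rw [← e3] at this
    exact this)
  rw [← e3]
  exact eq_univ_iff_forall.2 fun w => hall w

end Run7.h288.JR
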