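import Pool.Agent.Run7.h979.JR.Iface

set_option autoImplicit false

noncomputable section

namespace Run7.h288.JR

open Finset Classical Run7.h979.JR

theorem t_NEM : S_CLO → S_NEM := by
  rintro ⟨hclo, -, -⟩
  have hc : ∀ m : ℕ, IsClosed {v : Sq | Leg (Lk m) v} := by
    intro m
    have h := hclo (Lk m) 0
    simpa only [sub_zero] using h
  have hne : ∀ m : ℕ, {v : Sq | Leg (Lk m) v}.Nonempty := by
    intro m
    obtain ⟨x⟩ := (Lk m).ne
    refine ⟨fun n => (Lk m).lt x (n % (Lk m).len).toNat, fun t => ⟨x, fun i hi => ?_⟩⟩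
    have h1 : (t * ((Lk m).len : ℤ) + i) % (Lk m).len = i := by
      rw [Int.add_comm, Int.add_mul_emod_self_right]
      exact Int.emod_eq_of_lt (by omega) (by exact_mod_cast hi)
    show (Lk m).lt x (((t * ((Lk m).len : ℤ) + i) % (Lk m).len).toNat) = _
    rw [h1, Int.toNat_natCast]
  obtain ⟨v, hv⟩ := IsCompact.nonempty_iInter_of_sequence_nonempty_isCompact_isClosed
    (fun m => {v : Sq | Leg (Lk m) v}) (fun m v hv => Leg.down hv) hne
    (hc 0).isCompact hc
  rw [Set.mem_iInter] at hv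
  refine ⟨((fun _ => 0, v) : Ph × Sq), fun k => ⟨⟨0, fun j _ => by simp⟩, fun z hz => ?_⟩⟩
  have h1 : ((ell k : ℕ) : ℤ) ∣ z := by
    rw [← ZMod.intCast_zmod_eq_zero_iff_dvd]
    exact hz.symm
  obtain ⟨c, rfl⟩ := h1
  have h2 := Leg.shift (hv k) (-c)
  have e : (fun n : ℤ => v (n + -c * ((Lk k).len : ℤ))) =
      fun n : ℤ => v (n - (ell k : ℤ) * c) := by
    funext n
    congr 1
    show n + -c * (ell k : ℤ) = _
    ring
  rw [e] at h2
  exact h2

end Run7.h288.JR
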